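import Pool.Agent.CS5.Inn
import Pool.Agent.CSLB.Cf

/-!
Module Cf: the configuration.
-/

open Finset Filter Topology

noncomputable section

namespace Pool.CS5

open Pool.CS4 Pool.CSLB

lemma pt_true {d N : ℕ} (f : Fin N → E d) (i : Fin N) : pt f (i, true) = f i := rfl

lemma pt_false {d N : ℕ} (f : Fin N → E d) (i : Fin N) : pt f (i, false) = -f i := rfl

/-- a functional with values `1`, `σ` gives strict edges -/
lemma se_of {d N : ℕ} (f : Fin N → E d) (i j : Fin N) (hij : i ≠ j) (b e : Bool)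
    (l : E d →ₗ[ℝ] ℝ) (h1 : l (f i) = 1) (h2 : l (f j) = if b = e then 1 else -1)
    (h3 : ∀ k, k ≠ i → k ≠ j → |l (f k)| < 1) : SE f (i, b) (j, e) := by
  have key : ∀ s : ℝ, (s = 1 ∨ s = -1) → ∀ k, k ≠ i → k ≠ j → ∀ b', s * l (pt f (k, b')) < 1 := by
    intro s hs k hk hk' b'
    have := abs_lt.1 (h3 k hk hk')
    cases b'
    · rw [pt_false, map_neg]
      rcases hs with rfl | rfl <;> linarith [this.1, this.2]
    · rw [pt_true]
      rcases hs with rfl | rfl <;> linarith [this.1, this.2]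
  cases b
  · refine ⟨(-1 : ℝ) • l, ?_, ?_, ?_⟩
    · rw [LinearMap.smul_apply, pt_false, map_neg, h1]
      norm_num
    · cases e
      · rw [LinearMap.smul_apply, pt_false, map_neg, h2]
        norm_num
      · rw [LinearMap.smul_apply, pt_true, h2]
        norm_num
    · rintro ⟨k, b'⟩ hu hu'
      rw [LinearMap.smul_apply, smul_eq_mul]
      by_cases hk : k = i
      · subst hk
        cases b'
        · exact absurd rfl hu
        · rw [pt_true, h1]
          norm_num
      by_cases hk' : k = j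
      · subst hk'
        cases b' <;> cases e
        · exact absurd rfl hu'
        · rw [pt_false, map_neg, h2]
          norm_num
        · rw [pt_true, h2]
          norm_num
        · exact absurd rfl hu'
      · exact key (-1) (Or.inr rfl) k hk hk' b'
  · refine ⟨l, ?_, ?_, ?_⟩
    · rw [pt_true, h1]
    · cases e
      · rw [pt_false, map_neg, h2]
        norm_num
      · rw [pt_true, h2]
        norm_num
    · rintro ⟨k, b'⟩ hu hu'
      by_cases hk : k = i
      · subst hk
        cases b'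
        · rw [pt_false, map_neg, h1]
          norm_num
        · exact absurd rfl hu
      by_cases hk' : k = j
      · subst hk'
        cases b' <;> cases e
        · exact absurd rfl hu'
        · rw [pt_false, map_neg, h2]
          norm_num
        · rw [pt_true, h2]
          norm_num
        · exact absurd rfl hu'
      · have := key 1 (Or.inl rfl) k hk hk' b'
        linarith

theorem thm_Cf : St_Cf := by
  intro d m a v w c hD hm N hN
  have hm0 : 0 < m := by omega
  have e1 : ∀ᶠ δ in 𝓝[>] (0 : ℝ), ∀ i k : Fin m, i ≠ k → ∀ σ : ℝ, (σ = 1 ∨ σ = -1) →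
      ∀ s t, 0 < s → s < δ → 0 < t → t < δ → ∃ l : E d →ₗ[ℝ] ℝ,
      l (Crv (a i) (v i) (w i) (c i) s) = 1 ∧ l (Crv (a k) (v k) (w k) (c k) t) = σ ∧
      ∀ j x, 0 < x → x < δ → ¬ (j = i ∧ x = s) → ¬ (j = k ∧ x = t) →
        |l (Crv (a j) (v j) (w j) (c j) x)| < 1 := by
    refine Filter.eventually_all.2 fun i => Filter.eventually_all.2 fun k => ?_
    by_cases hik : i = k
    · exact Eventually.of_forall fun δ h => absurd hik h
    have h1 := thm_Crs d m a v w c hD i k hik 1 (Or.inl rfl)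
    have h2 := thm_Crs d m a v w c hD i k hik (-1) (Or.inr rfl)
    filter_upwards [h1, h2] with δ g1 g2 _ σ hσ
    rcases hσ with rfl | rfl
    · exact g1
    · exact g2
  have e2 : ∀ᶠ δ in 𝓝[>] (0 : ℝ), ∀ i : Fin m, ∀ s t, 0 < s → s < δ → 0 < t → t < δ → s ≠ t →
      ∃ l : E d →ₗ[ℝ] ℝ, l (Crv (a i) (v i) (w i) (c i) s) = 1 ∧
      l (Crv (a i) (v i) (w i) (c i) t) = 1 ∧
      ∀ j x, 0 < x → x < δ → ¬ (j = i ∧ x = s) → ¬ (j = i ∧ x = t) →
        |l (Crv (a j) (v j) (w j) (c j) x)| < 1 :=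
    Filter.eventually_all.2 fun i => thm_Inn d m a v w c hD i
  have e3 : ∀ᶠ δ in 𝓝[>] (0 : ℝ), 0 < δ := eventually_mem_nhdsWithin
  obtain ⟨δ, ⟨h1, h2⟩, hδ⟩ := ((e1.and e2).and e3).exists
  -- parameters and clusters
  set s : Fin N → ℝ := fun i => δ * (((i : ℕ) : ℝ) + 1) / ((N : ℝ) + 1) with hs
  have hN0 : (0 : ℝ) < (N : ℝ) + 1 := by positivity
  have hs0 : ∀ i, 0 < s i := fun i => by rw [hs]; positivity
  have hs1 : ∀ i, s i < δ := by
    intro i
    simp only [hs]
    rw [div_lt_iff₀ hN0]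
    have : ((i : ℕ) : ℝ) < N := by exact_mod_cast i.2
    nlinarith
  have hsi : ∀ i j, s i = s j → i = j := by
    intro i j h
    simp only [hs] at h
    rw [div_left_inj' hN0.ne'] at h
    have h3 := mul_left_cancel₀ hδ.ne' h
    have h4 : ((i : ℕ) : ℝ) = (j : ℕ) := by linarith
    exact Fin.ext (by exact_mod_cast h4)
  set cl : Fin N → Fin m := fun i => ⟨(i : ℕ) % m, Nat.mod_lt _ hm0⟩ with hcl
  set f : Fin N → E d := fun i => Crv (a (cl i)) (v (cl i)) (w (cl i)) (c (cl i)) (s i) with hf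
  have hclne : ∀ i j : Fin N, (i : ℕ) % m ≠ (j : ℕ) % m → cl i ≠ cl j := by
    intro i j h h'
    exact h (by simpa [hcl] using h')
  -- edges between clusters
  have hX : ∀ i j : Fin N, (i : ℕ) % m ≠ (j : ℕ) % m → ∀ b e : Bool, SE f (i, b) (j, e) := by
    intro i j hij b e
    have hne : i ≠ j := fun h => hij (by rw [h])
    obtain ⟨l, l1, l2, l3⟩ := h1 (cl i) (cl j) (hclne i j hij) (if b = e then 1 else -1)
      (by split_ifs <;> simp) (s i) (s j) (hs0 i) (hs1 i) (hs0 j) (hs1 j)
    refine se_of f i j hne b e l l1 l2 fun k hk hk' => ?_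
    exact l3 (cl k) (s k) (hs0 k) (hs1 k) (fun h => hk (hsi _ _ h.2)) (fun h => hk' (hsi _ _ h.2))
  have hY : ∀ i j : Fin N, i ≠ j → (i : ℕ) % m = (j : ℕ) % m → ∀ b : Bool,
      SE f (i, b) (j, b) := by
    intro i j hij hmod b
    have hce : cl i = cl j := by
      simp only [hcl, Fin.mk.injEq]
      exact hmod
    obtain ⟨l, l1, l2, l3⟩ := h2 (cl i) (s i) (s j) (hs0 i) (hs1 i) (hs0 j) (hs1 j)
      (fun h => hij (hsi _ _ h))
    refine se_of f i j hij b b l l1 ?_ fun k hk hk' => ?_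
    · rw [if_pos rfl]
      simp only [hf]
      rw [← hce]
      exact l2
    · exact l3 (cl k) (s k) (hs0 k) (hs1 k) (fun h => hk (hsi _ _ h.2)) (fun h => hk' (hsi _ _ h.2))
  refine ⟨f, ?_, ?_⟩
  · rintro ⟨i, b⟩
    -- an index in another cluster
    obtain ⟨j, hj⟩ : ∃ j : Fin N, (i : ℕ) % m ≠ (j : ℕ) % m := by
      by_cases h0 : (i : ℕ) + 1 < N
      · refine ⟨⟨i + 1, h0⟩, ?_⟩
        intro h
        have h' : (i : ℕ) ≡ i + 1 [MOD m] := h
        have h3 : m ∣ 1 := by
          have := (Nat.modEq_iff_dvd' (Nat.le_succ (i : ℕ))).1 h'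
          simpa using this
        have := Nat.le_of_dvd one_pos h3
        omega
      · have hi : 1 ≤ (i : ℕ) := by omega
        refine ⟨⟨i - 1, by omega⟩, ?_⟩
        intro h
        have h' : (i : ℕ) - 1 ≡ i [MOD m] := h.symm
        have h3 : m ∣ 1 := by
          have := (Nat.modEq_iff_dvd' (Nat.sub_le (i : ℕ) 1)).1 h'
          have h4 : (i : ℕ) - ((i : ℕ) - 1) = 1 := by omega
          rwa [h4] at this
        have := Nat.le_of_dvd one_pos h3
        omega
    exact cf_sv (hX i j hj b true) (hX i j hj b false)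
  · rintro ⟨i, b⟩ ⟨j, e⟩ ⟨g1, g2⟩
    simp only at g1 g2
    by_cases hmod : (i : ℕ) % m = (j : ℕ) % m
    · rcases g2 with g2 | g2
      · exact absurd hmod g2
      · subst g2
        exact hY i j g1 hmod b
    · exact hX i j hmod b e

end Pool.CS5
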