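import Pool.Agent.CS5.Defs

/-!
Module Crs: edges between different clusters.
-/

open Finset Filter Topology

noncomputable section

namespace Pool.CS5

open Pool.CS4 Pool.CSLB

/-- derivative of the curve -/
def Crvd {d : ℕ} (a v w c : E d) (x : ℝ) : E d :=
  (-(4 * x ^ 3)) • a + v + (2 * x) • w + (3 * x ^ 2) • c

lemma crv_quad {d : ℕ} (a v w c : E d) (l : E d →ₗ[ℝ] ℝ) (s x e : ℝ)
    (h1 : l (Crv a v w c s) = e) (h2 : l (Crvd a v w c s) = 0) :
    l (Crv a v w c x) = e + (x - s) ^ 2 *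
      (l w + (x + 2 * s) * l c - (x ^ 2 + 2 * x * s + 3 * s ^ 2) * l a) := by
  simp only [Crv, Crvd, map_add, map_smul, smul_eq_mul] at *
  linear_combination h1 + (x - s) * h2

lemma crv_cont {d : ℕ} (a v w c : E d) : Continuous (Crv a v w c) := by
  unfold Crv
  fun_prop

lemma crvd_cont {d : ℕ} (a v w c : E d) : Continuous (Crvd a v w c) := by
  unfold Crvd
  fun_prop

lemma crv_zero {d : ℕ} (a v w c : E d) : Crv a v w c 0 = a := by
  simp [Crv]

lemma crvd_zero {d : ℕ} (a v w c : E d) : Crvd a v w c 0 = v := by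
  simp [Crvd]

/-- a continuous family of functionals with prescribed values -/
lemma fam_fun {d : ℕ} (l0 : E d →L[ℝ] ℝ) (φ : Fin 4 → E d →L[ℝ] ℝ) (U : Fin 4 → ℝ × ℝ → E d)
    (hU : ∀ r, Continuous (U r)) (hφ : ∀ r s, φ r (U s 0) = if r = s then 1 else 0) :
    ∃ h : ℝ × ℝ → (E d →L[ℝ] ℝ), ContinuousAt h 0 ∧ h 0 = l0 ∧
      ∀ᶠ z in 𝓝 (0 : ℝ × ℝ), ∀ s, h z (U s z) = l0 (U s 0) := by
  set g : ℝ × ℝ → (E d →L[ℝ] E d) := fun z =>
    1 + ∑ r, ContinuousLinearMap.smulRight (φ r) (U r z - U r 0) with hg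
  have hgc : Continuous g := by
    refine continuous_const.add (continuous_finset_sum _ fun r _ => ?_)
    exact (ContinuousLinearMap.smulRightL ℝ (E d) (E d) (φ r)).continuous.comp
      ((hU r).sub continuous_const)
  have hg0 : g 0 = 1 := by
    simp [hg]
  have hgu : ∀ z s, g z (U s 0) = U s z := by
    intro z s
    simp only [hg, ContinuousLinearMap.add_apply, ContinuousLinearMap.one_apply,
      ContinuousLinearMap.sum_apply, ContinuousLinearMap.smulRight_apply, hφ, ite_smul, one_smul,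
      zero_smul, Finset.sum_ite_eq', Finset.mem_univ, if_true]
    abel
  refine ⟨fun z => l0.comp (Ring.inverse (g z)), ?_, ?_, ?_⟩
  · have h1 : ContinuousAt (fun z => Ring.inverse (g z)) (0 : ℝ × ℝ) := by
      have h2 := NormedRing.inverse_continuousAt (1 : (E d →L[ℝ] E d)ˣ)
      have h3 : ContinuousAt Ring.inverse (g 0) := by rw [hg0]; exact h2
      exact ContinuousAt.comp (f := g) h3 hgc.continuousAt
    exact continuousAt_const.clm_comp h1
  · show l0.comp (Ring.inverse (g 0)) = l0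
    rw [hg0, Ring.inverse_one]
    ext x
    simp
  · have h1 : ∀ᶠ z in 𝓝 (0 : ℝ × ℝ), IsUnit (g z) := by
      have h2 : {x : E d →L[ℝ] E d | IsUnit x} ∈ 𝓝 (g 0) := by
        rw [hg0]
        exact Units.isOpen.mem_nhds isUnit_one
      exact hgc.continuousAt h2
    filter_upwards [h1] with z hz s
    have h3 := Ring.inverse_mul_cancel _ hz
    have h4 : (Ring.inverse (g z)) (g z (U s 0)) = U s 0 := by
      have := congrArg (fun T : E d →L[ℝ] E d => T (U s 0)) h3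
      simpa using this
    show l0 ((Ring.inverse (g z)) (U s z)) = l0 (U s 0)
    rw [← hgu z s, h4]

theorem thm_Crs : St_Crs := by
  intro d m a v w c hD i k hik σ hσ
  obtain ⟨l, l1, l2, l3, l4, l5, l6, l7⟩ := hD.edge i k hik σ hσ
  obtain ⟨lp, p1, p2, p3, p4, -, -, -⟩ := hD.edge i k hik 1 (Or.inl rfl)
  obtain ⟨lm, m1, m2, m3, m4, -, -, -⟩ := hD.edge i k hik (-1) (Or.inr rfl)
  obtain ⟨f, f1, f2, f3, f4⟩ := hD.indep i k hik
  obtain ⟨g, g1, g2, g3, g4⟩ := hD.indep k i hik.symm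
  set L : E d →L[ℝ] ℝ := LinearMap.toContinuousLinearMap l with hL
  obtain ⟨h, hc, h0, hev⟩ := fam_fun L
    ![LinearMap.toContinuousLinearMap ((1 / 2 : ℝ) • (lp + lm)), LinearMap.toContinuousLinearMap f,
      LinearMap.toContinuousLinearMap ((1 / 2 : ℝ) • (lp - lm)), LinearMap.toContinuousLinearMap g]
    ![fun z => Crv (a i) (v i) (w i) (c i) z.1, fun z => Crvd (a i) (v i) (w i) (c i) z.1,
      fun z => Crv (a k) (v k) (w k) (c k) z.2, fun z => Crvd (a k) (v k) (w k) (c k) z.2]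
    (by
      intro r
      fin_cases r
      · exact (crv_cont _ _ _ _).comp continuous_fst
      · exact (crvd_cont _ _ _ _).comp continuous_fst
      · exact (crv_cont _ _ _ _).comp continuous_snd
      · exact (crvd_cont _ _ _ _).comp continuous_snd)
    (by
      intro r s
      fin_cases r <;> fin_cases s <;>
        simp [crv_zero, crvd_zero, p1, p2, p3, p4, m1, m2, m3, m4, f1, f2, f3, f4, g1, g2, g3, g4] <;>
        norm_num)
  -- the four conditions
  have hc' : ContinuousAt (fun y : (ℝ × ℝ) × ℝ => h y.1) 0 :=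
    ContinuousAt.comp (f := fun y : (ℝ × ℝ) × ℝ => y.1) (g := h) hc continuous_fst.continuousAt
  have hG : ∀ j, ContinuousAt (fun y : (ℝ × ℝ) × ℝ => h y.1 (Crv (a j) (v j) (w j) (c j) y.2)) 0 :=
    fun j => hc'.clm_apply ((crv_cont _ _ _ _).comp continuous_snd).continuousAt
  have hX : ∀ x : E d, ContinuousAt (fun y : (ℝ × ℝ) × ℝ => h y.1 x) 0 :=
    fun x => hc'.clm_apply continuousAt_const
  have hG0 : ∀ j, h (0 : (ℝ × ℝ) × ℝ).1 (Crv (a j) (v j) (w j) (c j) (0 : (ℝ × ℝ) × ℝ).2) = l (a j) := by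
    intro j
    show h 0 (Crv (a j) (v j) (w j) (c j) 0) = l (a j)
    rw [h0, crv_zero]
    rfl
  have hX0 : ∀ x : E d, h (0 : (ℝ × ℝ) × ℝ).1 x = l x := by
    intro x
    show h 0 x = l x
    rw [h0]
    rfl
  have e1 : ∀ᶠ y in 𝓝 (0 : (ℝ × ℝ) × ℝ), h y.1 (Crv (a i) (v i) (w i) (c i) y.1.1) = 1 ∧
      h y.1 (Crvd (a i) (v i) (w i) (c i) y.1.1) = 0 ∧
      h y.1 (Crv (a k) (v k) (w k) (c k) y.1.2) = σ ∧
      h y.1 (Crvd (a k) (v k) (w k) (c k) y.1.2) = 0 := by
    have h1 : ∀ᶠ y in 𝓝 (0 : (ℝ × ℝ) × ℝ), ∀ s, h y.1 (_ : E d) = L _ :=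
      (continuous_fst.tendsto (0 : (ℝ × ℝ) × ℝ)).eventually hev
    filter_upwards [h1] with y hy
    refine ⟨?_, ?_, ?_, ?_⟩
    · have := hy 0
      simpa [crv_zero, hL, l1] using this
    · have := hy 1
      simpa [crvd_zero, hL, l3] using this
    · have := hy 2
      simpa [crv_zero, hL, l2] using this
    · have := hy 3
      simpa [crvd_zero, hL, l4] using this
  have e2 : ∀ᶠ y in 𝓝 (0 : (ℝ × ℝ) × ℝ), ∀ j, j ≠ i → j ≠ k →
      |h y.1 (Crv (a j) (v j) (w j) (c j) y.2)| < 1 := by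
    refine Filter.eventually_all.2 fun j => ?_
    by_cases hj : j = i
    · exact Eventually.of_forall fun y h => absurd hj h
    by_cases hj' : j = k
    · exact Eventually.of_forall fun y _ h => absurd hj' h
    have h1 := (hG j).abs
    have h2 : |h (0 : (ℝ × ℝ) × ℝ).1 (Crv (a j) (v j) (w j) (c j) (0 : (ℝ × ℝ) × ℝ).2)| < 1 := by
      rw [hG0]
      exact l7 j hj hj'
    filter_upwards [h1.eventually_lt continuousAt_const h2] with y hy _ _
    exact hy
  have e3 : ∀ᶠ y in 𝓝 (0 : (ℝ × ℝ) × ℝ), -1 < h y.1 (Crv (a i) (v i) (w i) (c i) y.2) := by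
    refine continuousAt_const.eventually_lt (hG i) ?_
    rw [hG0, l1]
    norm_num
  have e4 : ∀ᶠ y in 𝓝 (0 : (ℝ × ℝ) × ℝ), -1 < σ * h y.1 (Crv (a k) (v k) (w k) (c k) y.2) := by
    refine continuousAt_const.eventually_lt (continuousAt_const.mul (hG k)) ?_
    rw [hG0, l2]
    rcases hσ with rfl | rfl <;> norm_num
  have e5 : ∀ᶠ y in 𝓝 (0 : (ℝ × ℝ) × ℝ), h y.1 (w i) + (y.2 + 2 * y.1.1) * h y.1 (c i) -
      (y.2 ^ 2 + 2 * y.2 * y.1.1 + 3 * y.1.1 ^ 2) * h y.1 (a i) < 0 := by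
    have h1 : ContinuousAt (fun y : (ℝ × ℝ) × ℝ => h y.1 (w i) + (y.2 + 2 * y.1.1) * h y.1 (c i) -
      (y.2 ^ 2 + 2 * y.2 * y.1.1 + 3 * y.1.1 ^ 2) * h y.1 (a i)) 0 := by
      refine ((hX _).add (ContinuousAt.mul ?_ (hX _))).sub (ContinuousAt.mul ?_ (hX _))
      · fun_prop
      · fun_prop
    refine h1.eventually_lt continuousAt_const ?_
    rw [hX0, hX0, hX0]
    simpa using l5
  have e6 : ∀ᶠ y in 𝓝 (0 : (ℝ × ℝ) × ℝ), σ * (h y.1 (w k) + (y.2 + 2 * y.1.2) * h y.1 (c k) -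
      (y.2 ^ 2 + 2 * y.2 * y.1.2 + 3 * y.1.2 ^ 2) * h y.1 (a k)) < 0 := by
    have h1 : ContinuousAt (fun y : (ℝ × ℝ) × ℝ => σ * (h y.1 (w k) +
        (y.2 + 2 * y.1.2) * h y.1 (c k) -
        (y.2 ^ 2 + 2 * y.2 * y.1.2 + 3 * y.1.2 ^ 2) * h y.1 (a k))) 0 := by
      refine continuousAt_const.mul
        (((hX _).add (ContinuousAt.mul ?_ (hX _))).sub (ContinuousAt.mul ?_ (hX _)))
      · fun_prop
      · fun_prop
    refine h1.eventually_lt continuousAt_const ?_
    rw [hX0, hX0, hX0]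
    simpa using l6
  have eA := e1.and (e2.and (e3.and (e4.and (e5.and e6))))
  obtain ⟨ε, hε, hA⟩ := Metric.eventually_nhds_iff.1 eA
  have hIoo : Set.Ioo (0 : ℝ) ε ∈ 𝓝[>] (0 : ℝ) := Ioo_mem_nhdsGT hε
  filter_upwards [hIoo] with δ hδ s t hs hs' ht ht'
  have hdist : ∀ x, 0 < x → x < δ → dist (((s, t), x) : (ℝ × ℝ) × ℝ) 0 < ε := by
    intro x hx hx'
    rw [Prod.dist_eq, Prod.dist_eq]
    simp only [Prod.fst_zero, Prod.snd_zero, dist_zero_right, Real.norm_eq_abs]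
    rw [abs_of_pos hs, abs_of_pos ht, abs_of_pos hx]
    exact max_lt (max_lt (hs'.trans hδ.2) (ht'.trans hδ.2)) (hx'.trans hδ.2)
  obtain ⟨⟨b1, b2, b3, b4⟩, -⟩ := hA (hdist s hs hs')
  refine ⟨(h (s, t) : E d →L[ℝ] ℝ).toLinearMap, b1, b3, ?_⟩
  intro j x hx hx' hji hjk
  obtain ⟨-, c2, c3, c4, c5, c6⟩ := hA (hdist x hx hx')
  simp only [] at c2 c3 c4 c5 c6
  by_cases hj : j = i
  · subst hj
    have hxs : x ≠ s := fun h => hji ⟨rfl, h⟩
    have q := crv_quad (a j) (v j) (w j) (c j) (h (s, t)).toLinearMap s x 1 b1 b2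
    have hpos : 0 < (x - s) ^ 2 := by
      have := sub_ne_zero.2 hxs
      positivity
    rw [abs_lt]
    refine ⟨c3, ?_⟩
    rw [q]
    have := mul_neg_of_pos_of_neg hpos c5
    simp only [ContinuousLinearMap.coe_coe] at *
    linarith
  by_cases hj' : j = k
  · subst hj'
    have hxs : x ≠ t := fun h => hjk ⟨rfl, h⟩
    have q := crv_quad (a j) (v j) (w j) (c j) (h (s, t)).toLinearMap t x σ b3 b4
    have hpos : 0 < (x - t) ^ 2 := by
      have := sub_ne_zero.2 hxs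
      positivity
    have h7 := mul_neg_of_pos_of_neg hpos c6
    simp only [ContinuousLinearMap.coe_coe] at *
    rw [abs_lt]
    rcases hσ with rfl | rfl
    · constructor
      · linarith
      · rw [q]
        linarith
    · constructor
      · rw [q]
        linarith
      · linarith
  · exact c2 j hj hj'

end Pool.CS5
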