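import Pool.Agent.CS5.Defs

/-!
Module Dat: seven clusters in `ℝ^5`, with integer certificates (found by computer).
-/

open Finset

noncomputable section

namespace Pool.CS5

open Pool.CS4 Pool.CSLB

namespace Dat

abbrev T5 : Type := Fin 5 → ℤ

/-- scalar product -/
def dt (x y : T5) : ℤ := x 0 * y 0 + x 1 * y 1 + x 2 * y 2 + x 3 * y 3 + x 4 * y 4

/-- table -/
def tA : Fin 7 → T5 := ![![100, 0, 0, 0, 0],
  ![0, 100, 0, 0, 0],
  ![0, 0, 100, 0, 0],
  ![0, 0, 0, 100, 0],
  ![0, 0, 0, 0, 100],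
  ![51, -114, -92, 82, -24],
  ![30, 79, 74, -130, 54]]

/-- table -/
def tV : Fin 7 → T5 := ![![-29, -69, 51, 59, 100],
  ![-90, 22, 81, 69, -100],
  ![-100, 26, -1, 91, -18],
  ![100, -40, 2, 26, -95],
  ![-45, -100, -72, 33, -48],
  ![34, -60, 56, -32, -100],
  ![-85, -100, 80, 43, 67]]

/-- table -/
def tW : Fin 7 → T5 := ![![-668, 345, 0, 0, 345],
  ![4500, -10009, 4500, -4500, -4500],
  ![0, 50, -97, 0, -50],
  ![-10000, 0, -20000, -12271, -10000],
  ![-500, 0, 500, 500, -1457],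
  ![57783, 219588, 189514, -112094, 32808],
  ![-2910, -7663, -2178, 12610, -10238]]

/-- table -/
def tC : Fin 7 → T5 := ![![7, 0, 20, 0, 0],
  ![0, 2, 25, 0, 0],
  ![0, 0, -12, 25, 0],
  ![0, 0, 0, -29, 100],
  ![0, 50, 0, 0, 21],
  ![-2397, 5358, 9324, -3854, 1128],
  ![570, 1501, 1406, 30, 1026]]

/-- table -/
def tN : Fin 7 → T5 := ![![6900, 6667, -2415, 1932, 6693],
  ![4384, 4500, -360, -1620, -4365],
  ![2134, 2425, 2500, 1200, -2425],
  ![4229, 9700, -9700, 10000, 2900],
  ![-487, -210, 485, 485, 500],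
  ![4890, -3638, 4794, 4947, 4947],
  ![23447, -94490, 360355, -282340, -360355]]

/-- table -/
def dN : Fin 7 → ℤ := ![690000, 450000, 250000, 1000000, 50000, 510000, 37150000]

/-- table -/
def tP : Fin 7 → T5 := ![![0, 0, 0, 1, 0],
  ![-1, 0, 0, -1, 0],
  ![0, 1, 0, 0, 1],
  ![0, -1, 0, 0, 0],
  ![-1, 0, 0, -1, 0],
  ![0, 0, 0, -12, -41],
  ![-79, 30, 0, 0, 0]]

/-- table -/
def dP : Fin 7 → ℤ := ![59, 21, 8, 40, 12, 4484, 3715]

/-- table -/
def tQ : Fin 7 → T5 := ![![0, 59, 0, 69, 0],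
  ![-23, 0, 0, -30, 0],
  ![0, -9, 0, 0, -13],
  ![-2, -5, 0, 0, 0],
  ![11, 0, 0, 15, 0],
  ![126, 65, 0, 12, 0],
  ![-29, 0, 300, 0, -395]]

/-- table -/
def dQ : Fin 7 → ℤ := ![20355, 31500, 200, 20000, 2000, 20208750, 3475000]

/-- table -/
def tR : Fin 7 → T5 := ![![0, 0, 59, -51, 0],
  ![-1, 0, 10, 0, 9],
  ![0, -91, 0, 8, -91],
  ![-8, -39, 0, 0, 8],
  ![-25, 3, 0, -25, 0],
  ![0, -1121, 1121, 73, 1277],
  ![-9603, 9760, 0, 3715, 0]]

/-- table -/
def dR : Fin 7 → ℤ := ![1180, 250, 200, 800, 150, 5605000, 9287500]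

/-- table -/
def tL : Fin 7 → Fin 7 → T5 := ![![![0, 0, 0, 0, 0], ![90130920, 90130920, 49986460, 65340000, 24284607], ![925590527, 645414025, 925590527, 797624309, -228892581], ![7919110405, 7864188700, -7798561750, 7919110405, 7027823574], ![11159300724, -6040040247, -11042700869, -10947379392, 11159300724], ![606474, -139723, -196791, 0, 179832], ![37305797324499, -23388935973372, 27554605617640, -21414850771543, -6737771507308]],
  ![![90130920, 90130920, 49986460, 65340000, 24284607], ![0, 0, 0, 0, 0], ![40156144, 40414645, 40414645, 39501225, 32742400], ![287, 530, 0, 530, 224], ![-51072708, 51348375, -50425870, 50625000, 51348375], ![19244258, 19308950, -18150413, 12442717, -19188223], ![52803722, 57395350, 56612015, 55638385, 49349845]],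
  ![![925590527, 645414025, 925590527, 797624309, -228892581], ![40156144, 40414645, 40414645, 39501225, 32742400], ![0, 0, 0, 0, 0], ![5299, 4520, 5650, 5650, 5340], ![-329099289, -410857314, 422904019, -155961125, 422904019], ![7757438, -16735999, 17077550, 16828476, 16857444], ![7199409, 7316470, 7760625, 7134355, 6208500]],
  ![![7919110405, 7864188700, -7798561750, 7919110405, 7027823574], ![287, 530, 0, 530, 224], ![5299, 4520, 5650, 5650, 5340], ![0, 0, 0, 0, 0], ![882, -2751, 2655, 2950, 2950], ![896850, -11793369, 10343010, 11867600, 9375404], ![88194075126161, 87832220509440, 87006657655490, 88922912098145, 82022397074750]],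
  ![![11159300724, -6040040247, -11042700869, -10947379392, 11159300724], ![-51072708, 51348375, -50425870, 50625000, 51348375], ![-329099289, -410857314, 422904019, -155961125, 422904019], ![882, -2751, 2655, 2950, 2950], ![0, 0, 0, 0, 0], ![238080, -263514, -23637, -134416, 268832], ![-6387424, 1847130, -7241455, -7298800, 7984280]],
  ![![606474, -139723, -196791, 0, 179832], ![19244258, 19308950, -18150413, 12442717, -19188223], ![7757438, -16735999, 17077550, 16828476, 16857444], ![896850, -11793369, 10343010, 11867600, 9375404], ![238080, -263514, -23637, -134416, 268832], ![0, 0, 0, 0, 0], ![1539228692, -1519733094, -716359095, -1535679486, 1525433954]],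
  ![![37305797324499, -23388935973372, 27554605617640, -21414850771543, -6737771507308], ![52803722, 57395350, 56612015, 55638385, 49349845], ![7199409, 7316470, 7760625, 7134355, 6208500], ![88194075126161, 87832220509440, 87006657655490, 88922912098145, 82022397074750], ![-6387424, 1847130, -7241455, -7298800, 7984280], ![1539228692, -1519733094, -716359095, -1535679486, 1525433954], ![0, 0, 0, 0, 0]]]

/-- table -/
def dL : Fin 7 → Fin 7 → ℤ := ![![1, 9013092000, 92559052700, 791911040500, 1115930072400, 60647400, 3730579732449900],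
  ![9013092000, 1, 4041464500, 53000, 5134837500, 1930895000, 5739535000],
  ![92559052700, 4041464500, 1, 565000, 42290401900, 1707755000, 776062500],
  ![791911040500, 53000, 565000, 1, 295000, 1186760000, 8892291209814500],
  ![1115930072400, 5134837500, 42290401900, 295000, 1, 26883200, 798428000],
  ![60647400, 1930895000, 1707755000, 1186760000, 26883200, 1, 155119140000],
  ![3730579732449900, 5739535000, 776062500, 8892291209814500, 798428000, 155119140000, 1]]

/-- table -/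
def tM : Fin 7 → Fin 7 → T5 := ![![![0, 0, 0, 0, 0], ![37554550, -37554550, 29284300, -9075000, -24602563], ![925590527, 903579635, -925590527, 912136925, 825781584], ![7919110405, -4341258460, -7575745700, -7919110405, 7836979126], ![3719766908, -1504039701, 3699642945, 3176091552, -3719766908], ![5053950, 5004838, 4956009, 3335607, 423411], ![37305797324499, -12091738405770, 36509852443373, 35366518446502, -37010888905433]],
  ![![-37554550, 37554550, -29284300, 9075000, 24602563], ![0, 0, 0, 0, 0], ![-593946241, 2344049410, -2344049410, -1755610000, -2059808435], ![-28839953, 108367510, -102247600, -108367510, -107797328], ![-8650856, 51348375, -51014090, -42187500, -51348375], ![43382, 772358, -386179, -478213, -511897], ![-10331163, 11479070, -11373265, 11259395, 10380080]],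
  ![![-925590527, -903579635, 925590527, -912136925, -825781584], ![593946241, -2344049410, 2344049410, 1755610000, 2059808435], ![0, 0, 0, 0, 0], ![-112109, -102830, 113000, -113000, -103260], ![1076, -3165, 11170, 0, -11170], ![1235342, 1366204, 1707755, 1030799, 226781], ![51255947, -14594240, 51737500, 50932090, -51220125]],
  ![![-7919110405, 4341258460, 7575745700, 7919110405, -7836979126], ![28839953, -108367510, 102247600, 108367510, 107797328], ![112109, 102830, -113000, 113000, 103260], ![0, 0, 0, 0, 0], ![-5816, 3573, 5310, 5900, -5900], ![-98330, 200205, 197914, 237352, -118676], ![-66323, 393330, -42945, 863515, 0]],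
  ![![-3719766908, 1504039701, -3699642945, -3176091552, 3719766908], ![8650856, -51348375, 51014090, 42187500, 51348375], ![-1076, 3165, -11170, 0, 11170], ![5816, -3573, -5310, -5900, 5900], ![0, 0, 0, 0, 0], ![-6253568, -6474546, 6633759, -3898064, 6720800], ![0, 694914, -1311275, 1567536, 1596856]],
  ![![-5053950, -5004838, -4956009, -3335607, -423411], ![-43382, -772358, 386179, 478213, 511897], ![-1235342, -1366204, -1707755, -1030799, -226781], ![98330, -200205, -197914, -237352, 118676], ![6253568, 6474546, -6633759, 3898064, -6720800], ![0, 0, 0, 0, 0], ![-319840, -532158, -804195, 0, -239800]],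
  ![![-37305797324499, 12091738405770, -36509852443373, -35366518446502, 37010888905433], ![10331163, -11479070, 11373265, -11259395, -10380080], ![-51255947, 14594240, -51737500, -50932090, 51220125], ![66323, -393330, 42945, -863515, 0], ![0, -694914, 1311275, -1567536, -1596856], ![319840, 532158, 804195, 0, 239800], ![0, 0, 0, 0, 0]]]

/-- table -/
def dM : Fin 7 → Fin 7 → ℤ := ![![1, 3755455000, 92559052700, 791911040500, 371976690800, 505395000, 3730579732449900],
  ![3755455000, 1, 234404941000, 10836751000, 5134837500, 77235800, 1147907000],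
  ![92559052700, 234404941000, 1, 11300000, 1117000, 170775500, 5173750000],
  ![791911040500, 10836751000, 11300000, 1, 590000, 23735200, 86351500],
  ![371976690800, 5134837500, 1117000, 590000, 1, 672080000, 159685600],
  ![505395000, 77235800, 170775500, 23735200, 672080000, 1, 124095312],
  ![3730579732449900, 1147907000, 5173750000, 86351500, 159685600, 124095312, 1]]

/-- table -/
def tF : Fin 7 → Fin 7 → T5 := ![![![0, 0, 0, 0, 0], ![0, 0, -23, 27, 0], ![0, -7, 0, 2, 0], ![0, 1, 20, 0, 0], ![0, 0, 11, 24, 0], ![0, -1121, 0, -1245, 1071], ![0, 0, -5516, -319, 6791]],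
  ![![0, 0, 59, -51, 0], ![0, 0, 0, 0, 0], ![-91, 0, 0, -100, 0], ![-19, 0, 0, 0, -20], ![11, 0, 0, 15, 0], ![0, 0, 1121, 1318, 206], ![-29, 0, 300, 0, -395]],
  ![![0, 100, 0, 0, 69], ![23, 0, 0, 30, 0], ![0, 0, 0, 0, 0], ![-2, -5, 0, 0, 0], ![11, 0, 0, 15, 0], ![-126, -65, 0, -12, 0], ![-1379, 0, 0, -825, -1220]],
  ![![0, -17, -23, 0, 0], ![9, 0, 10, 0, 0], ![-13, -50, 0, 0, 0], ![0, 0, 0, 0, 0], ![8, 0, -5, 0, 0], ![744, 374, -51, 0, 0], ![-29, 0, 300, 0, -395]],
  ![![0, -17, -23, 0, 0], ![-23, 0, 0, -30, 0], ![0, -7, 0, 2, 0], ![-2, -5, 0, 0, 0], ![0, 0, 0, 0, 0], ![-126, -65, 0, -12, 0], ![-2744, 1738, -743, 0, 0]],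
  ![![0, -2404, 0, -3264, 267], ![4330, 0, 3633, 1383, 0], ![446, 553, 0, 0, -1679], ![-658, -163, 0, 0, -624], ![16, -126, 165, 0, 0], ![0, 0, 0, 0, 0], ![106110, 0, 144932, 71863, -84557]],
  ![![0, -10996, -4309, -9135, 0], ![-2606, 0, -1605, -1515, 0], ![1287, 0, 0, 2430, 5135], ![1069, -1650, 0, 0, 1820], ![1712, -1170, 555, 0, 0], ![25754, 0, 44360, 39853, 20845], ![0, 0, 0, 0, 0]]]

/-- table -/
def dF : Fin 7 → Fin 7 → ℤ := ![![1, 420, 601, 951, 1977, 110994, 378963],
  ![1260, 1, 1290, 3710, 45, 161143, 66410],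
  ![1358, 430, 1, 70, 265, 9818, 84785],
  ![634, 920, 700, 1, 790, 59338, 35225],
  ![3356, 45, 766, 590, 1, 11774, 3176],
  ![221988, 306412, 149884, 49808, 17344, 1, 17880016],
  ![362075, 27965, 339140, 196075, 15880, 4470004, 1]]


lemma chk_L : ∀ i k : Fin 7, i ≠ k → 0 < dL i k ∧ dt (tL i k) (tA i) = dL i k ∧
    dt (tL i k) (tA k) = dL i k ∧ dt (tL i k) (tV i) = 0 ∧ dt (tL i k) (tV k) = 0 ∧
    dt (tL i k) (tW i) < 0 ∧ dt (tL i k) (tW k) < 0 ∧
    ∀ j, j ≠ i → j ≠ k → -dL i k < dt (tL i k) (tA j) ∧ dt (tL i k) (tA j) < dL i k := by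
  decide +kernel

lemma chk_M : ∀ i k : Fin 7, i ≠ k → 0 < dM i k ∧ dt (tM i k) (tA i) = dM i k ∧
    dt (tM i k) (tA k) = -dM i k ∧ dt (tM i k) (tV i) = 0 ∧ dt (tM i k) (tV k) = 0 ∧
    dt (tM i k) (tW i) < 0 ∧ 0 < dt (tM i k) (tW k) ∧
    ∀ j, j ≠ i → j ≠ k → -dM i k < dt (tM i k) (tA j) ∧ dt (tM i k) (tA j) < dM i k := by
  decide +kernel

lemma chk_F : ∀ i k : Fin 7, i ≠ k → 0 < dF i k ∧ dt (tF i k) (tA i) = 0 ∧
    dt (tF i k) (tA k) = 0 ∧ dt (tF i k) (tV i) = dF i k ∧ dt (tF i k) (tV k) = 0 := by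
  decide +kernel

lemma chk_N : ∀ i : Fin 7, (0 < dN i ∧ dt (tN i) (tA i) = dN i ∧ dt (tN i) (tV i) = 0 ∧
    dt (tN i) (tW i) = 0 ∧ dt (tN i) (tC i) = 0) ∧
    (0 < dP i ∧ dt (tP i) (tA i) = 0 ∧ dt (tP i) (tV i) = dP i ∧
    dt (tP i) (tW i) = 0 ∧ dt (tP i) (tC i) = 0) ∧
    (0 < dQ i ∧ dt (tQ i) (tA i) = 0 ∧ dt (tQ i) (tV i) = 0 ∧
    dt (tQ i) (tW i) = dQ i ∧ dt (tQ i) (tC i) = 0) ∧
    (0 < dR i ∧ dt (tR i) (tA i) = 0 ∧ dt (tR i) (tV i) = 0 ∧
    dt (tR i) (tW i) = 0 ∧ dt (tR i) (tC i) = dR i) ∧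
    ∀ j, j ≠ i → -dN i < dt (tN i) (tA j) ∧ dt (tN i) (tA j) < dN i := by
  decide +kernel

/-- real vector -/
def rv (x : T5) : E 5 := fun c => (x c : ℝ)

/-- functional with integer coefficients and a denominator -/
def fn (x : T5) (D : ℤ) : E 5 →ₗ[ℝ] ℝ where
  toFun y := (∑ c, (x c : ℝ) * y c) / D
  map_add' y z := by
    simp only [Pi.add_apply, mul_add, Finset.sum_add_distrib, add_div]
  map_smul' r y := by
    simp only [Pi.smul_apply, smul_eq_mul, RingHom.id_apply]
    rw [mul_div_assoc', Finset.mul_sum]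
    congr 1
    exact Finset.sum_congr rfl fun c _ => by ring

lemma fn_rv (x y : T5) (D : ℤ) : fn x D (rv y) = (dt x y : ℝ) / D := by
  show (∑ c, (x c : ℝ) * (y c : ℝ)) / D = _
  rw [dt]
  push_cast
  simp only [Fin.sum_univ_five]

lemma fn_one {x y : T5} {D : ℤ} (hD : 0 < D) (h : dt x y = D) : fn x D (rv y) = 1 := by
  rw [fn_rv, h, div_self]
  exact_mod_cast hD.ne'

lemma fn_neg {x y : T5} {D : ℤ} (hD : 0 < D) (h : dt x y = -D) : fn x D (rv y) = -1 := by
  rw [fn_rv, h]
  push_cast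
  rw [neg_div, div_self]
  exact_mod_cast hD.ne'

lemma fn_zero {x y : T5} {D : ℤ} (h : dt x y = 0) : fn x D (rv y) = 0 := by
  rw [fn_rv, h]
  simp

lemma fn_lt {x y : T5} {D : ℤ} (hD : 0 < D) (h : dt x y < 0) : fn x D (rv y) < 0 := by
  rw [fn_rv]
  exact div_neg_of_neg_of_pos (by exact_mod_cast h) (by exact_mod_cast hD)

lemma fn_gt {x y : T5} {D : ℤ} (hD : 0 < D) (h : 0 < dt x y) : 0 < fn x D (rv y) := by
  rw [fn_rv]
  exact div_pos (by exact_mod_cast h) (by exact_mod_cast hD)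

lemma fn_abs {x y : T5} {D : ℤ} (hD : 0 < D) (h : -D < dt x y ∧ dt x y < D) :
    |fn x D (rv y)| < 1 := by
  have hD' : (0 : ℝ) < D := by exact_mod_cast hD
  have h1 : -(D : ℝ) < dt x y := by exact_mod_cast h.1
  have h2 : (dt x y : ℝ) < D := by exact_mod_cast h.2
  rw [fn_rv, abs_lt]
  constructor
  · rw [lt_div_iff₀ hD']
    linarith
  · rw [div_lt_iff₀ hD']
    linarith

end Dat

open Dat

theorem thm_Dat : St_Dat := by
  refine ⟨fun i => rv (tA i), fun i => rv (tV i), fun i => rv (tW i), fun i => rv (tC i), ?_, ?_, ?_⟩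
  · rintro i k hik σ (rfl | rfl)
    · obtain ⟨h0, h1, h2, h3, h4, h5, h6, h7⟩ := chk_L i k hik
      refine ⟨fn (tL i k) (dL i k), fn_one h0 h1, fn_one h0 h2, fn_zero h3, fn_zero h4,
        fn_lt h0 h5, ?_, fun j hj hj' => fn_abs h0 (h7 j hj hj')⟩
      rw [one_mul]
      exact fn_lt h0 h6
    · obtain ⟨h0, h1, h2, h3, h4, h5, h6, h7⟩ := chk_M i k hik
      refine ⟨fn (tM i k) (dM i k), fn_one h0 h1, fn_neg h0 h2, fn_zero h3, fn_zero h4,
        fn_lt h0 h5, ?_, fun j hj hj' => fn_abs h0 (h7 j hj hj')⟩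
      have := fn_gt h0 h6
      linarith
  · intro i k hik
    obtain ⟨h0, h1, h2, h3, h4⟩ := chk_F i k hik
    exact ⟨fn (tF i k) (dF i k), fn_zero h1, fn_zero h2, fn_one h0 h3, fn_zero h4⟩
  · intro i
    obtain ⟨⟨n0, n1, n2, n3, n4⟩, ⟨p0, p1, p2, p3, p4⟩, ⟨q0, q1, q2, q3, q4⟩,
      ⟨r0, r1, r2, r3, r4⟩, h⟩ := chk_N i
    exact ⟨fn (tN i) (dN i), fn (tP i) (dP i), fn (tQ i) (dQ i), fn (tR i) (dR i),
      ⟨fn_one n0 n1, fn_zero n2, fn_zero n3, fn_zero n4⟩,
      ⟨fn_zero p1, fn_one p0 p2, fn_zero p3, fn_zero p4⟩,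
      ⟨fn_zero q1, fn_zero q2, fn_one q0 q3, fn_zero q4⟩,
      ⟨fn_zero r1, fn_zero r2, fn_zero r3, fn_one r0 r4⟩, fun j hj => fn_abs n0 (h j hj)⟩

end Pool.CS5
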