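import Pool.Agent.CSLB.Defs

/-!
Clusters of points near the vertices of a centrally symmetric polytope (MP_54ed1a_co), improved
lower bound in dimension five: definitions and statements of the modules.

A `Datum` in `ℝ^d` consists of `m` points `a i` with directions `v i` such that the directions can
be used to replace every `a i` by a curve `Crv i` without loosing the edges between the clusters.
-/

open Finset Filter Topology

noncomputable section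

namespace Pool.CS5

open Pool.CS4 Pool.CSLB

/-- the curve of a cluster -/
def Crv {d : ℕ} (a v w c : E d) (x : ℝ) : E d :=
  (1 - x ^ 4) • a + x • v + x ^ 2 • w + x ^ 3 • c

/-- `m` clusters in `ℝ^d` -/
structure Datum {d m : ℕ} (a v w c : Fin m → E d) : Prop where
  /-- edges between clusters -/
  edge : ∀ i k, i ≠ k → ∀ σ : ℝ, (σ = 1 ∨ σ = -1) → ∃ l : E d →ₗ[ℝ] ℝ, l (a i) = 1 ∧
    l (a k) = σ ∧ l (v i) = 0 ∧ l (v k) = 0 ∧ l (w i) < 0 ∧ σ * l (w k) < 0 ∧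
    ∀ j, j ≠ i → j ≠ k → |l (a j)| < 1
  /-- independence of two clusters -/
  indep : ∀ i k, i ≠ k → ∃ φ : E d →ₗ[ℝ] ℝ, φ (a i) = 0 ∧ φ (a k) = 0 ∧ φ (v i) = 1 ∧
    φ (v k) = 0
  /-- edges inside a cluster -/
  inner : ∀ i, ∃ n p q r : E d →ₗ[ℝ] ℝ,
    (n (a i) = 1 ∧ n (v i) = 0 ∧ n (w i) = 0 ∧ n (c i) = 0) ∧
    (p (a i) = 0 ∧ p (v i) = 1 ∧ p (w i) = 0 ∧ p (c i) = 0) ∧
    (q (a i) = 0 ∧ q (v i) = 0 ∧ q (w i) = 1 ∧ q (c i) = 0) ∧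
    (r (a i) = 0 ∧ r (v i) = 0 ∧ r (w i) = 0 ∧ r (c i) = 1) ∧
    ∀ j, j ≠ i → |n (a j)| < 1

/-- (Dat) seven clusters in `ℝ^5` -/
def St_Dat : Prop := ∃ a v w c : Fin 7 → E 5, Datum a v w c

/-- (Crs) edges between clusters -/
def St_Crs : Prop := ∀ (d m : ℕ) (a v w c : Fin m → E d), Datum a v w c →
  ∀ i k, i ≠ k → ∀ σ : ℝ, (σ = 1 ∨ σ = -1) → ∀ᶠ δ in 𝓝[>] (0 : ℝ), ∀ s t, 0 < s → s < δ →
    0 < t → t < δ → ∃ l : E d →ₗ[ℝ] ℝ, l (Crv (a i) (v i) (w i) (c i) s) = 1 ∧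
      l (Crv (a k) (v k) (w k) (c k) t) = σ ∧
      ∀ j x, 0 < x → x < δ → ¬ (j = i ∧ x = s) → ¬ (j = k ∧ x = t) →
        |l (Crv (a j) (v j) (w j) (c j) x)| < 1

/-- (Inn) edges inside a cluster -/
def St_Inn : Prop := ∀ (d m : ℕ) (a v w c : Fin m → E d), Datum a v w c →
  ∀ i, ∀ᶠ δ in 𝓝[>] (0 : ℝ), ∀ s t, 0 < s → s < δ → 0 < t → t < δ → s ≠ t →
    ∃ l : E d →ₗ[ℝ] ℝ, l (Crv (a i) (v i) (w i) (c i) s) = 1 ∧
      l (Crv (a i) (v i) (w i) (c i) t) = 1 ∧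
      ∀ j x, 0 < x → x < δ → ¬ (j = i ∧ x = s) → ¬ (j = i ∧ x = t) →
        |l (Crv (a j) (v j) (w j) (c j) x)| < 1

/-- (Cf) the configuration -/
def St_Cf : Prop := ∀ (d m : ℕ) (a v w c : Fin m → E d), Datum a v w c → 2 ≤ m →
  ∀ N : ℕ, 2 ≤ N → ∃ f : Fin N → E d, (∀ p, SV f p) ∧ ∀ p q, Good m p q → SE f p q

end Pool.CS5
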