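import Pool.Agent.CS5.Crs

/-!
Module Inn: edges inside a cluster.
-/

open Finset Filter Topology

noncomputable section

namespace Pool.CS5

open Pool.CS4 Pool.CSLB

theorem thm_Inn : St_Inn := by
  intro d m a v w c hD i
  obtain ⟨n, p, q, r, ⟨n1, n2, n3, n4⟩, ⟨p1, p2, p3, p4⟩, ⟨q1, q2, q3, q4⟩,
    ⟨r1, r2, r3, r4⟩, hn⟩ := hD.inner i
  -- the functional
  set K : ℝ × ℝ → ℝ := fun z => 1 / (1 + z.1 ^ 2 * z.2 ^ 2) with hK
  have hKc : Continuous K := by
    refine continuous_const.div (by fun_prop) fun z => ?_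
    positivity
  set F : ℝ × ℝ → (E d →ₗ[ℝ] ℝ) := fun z => K z • n + (2 * K z * (z.1 * z.2 * (z.1 + z.2))) • p +
    (-(K z * (z.1 ^ 2 + 4 * z.1 * z.2 + z.2 ^ 2))) • q + (2 * K z * (z.1 + z.2)) • r with hF
  have hFi : ∀ z x, F z (Crv (a i) (v i) (w i) (c i) x) =
      1 - K z * ((x - z.1) ^ 2 * (x - z.2) ^ 2) := by
    intro z x
    have hk : K z * (1 + z.1 ^ 2 * z.2 ^ 2) = 1 := by
      rw [hK]
      have : (1 + z.1 ^ 2 * z.2 ^ 2 : ℝ) ≠ 0 := by positivity
      field_simp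
    simp only [hF, Crv, LinearMap.add_apply, LinearMap.smul_apply, map_add, map_smul, smul_eq_mul,
      n1, n2, n3, n4, p1, p2, p3, p4, q1, q2, q3, q4, r1, r2, r3, r4]
    linear_combination hk
  have hFc : ∀ j, Continuous fun y : (ℝ × ℝ) × ℝ => F y.1 (Crv (a j) (v j) (w j) (c j) y.2) := by
    intro j
    simp only [hF, Crv, LinearMap.add_apply, LinearMap.smul_apply, map_add, map_smul, smul_eq_mul]
    have h1 : Continuous fun y : (ℝ × ℝ) × ℝ => K y.1 := hKc.comp continuous_fst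
    fun_prop
  have e2 : ∀ᶠ y in 𝓝 (0 : (ℝ × ℝ) × ℝ), ∀ j, j ≠ i →
      |F y.1 (Crv (a j) (v j) (w j) (c j) y.2)| < 1 := by
    refine Filter.eventually_all.2 fun j => ?_
    by_cases hj : j = i
    · exact Eventually.of_forall fun y h => absurd hj h
    have h1 := (hFc j).abs.continuousAt (x := (0 : (ℝ × ℝ) × ℝ))
    have h2 : |F (0 : (ℝ × ℝ) × ℝ).1 (Crv (a j) (v j) (w j) (c j) (0 : (ℝ × ℝ) × ℝ).2)| < 1 := by
      have h3 : F (0 : (ℝ × ℝ) × ℝ).1 (Crv (a j) (v j) (w j) (c j) (0 : (ℝ × ℝ) × ℝ).2) =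
          n (a j) := by
        show F 0 (Crv (a j) (v j) (w j) (c j) 0) = n (a j)
        rw [crv_zero]
        simp [hF, hK]
      rw [h3]
      exact hn j hj
    filter_upwards [h1.eventually_lt continuousAt_const h2] with y hy _
    exact hy
  obtain ⟨ε, hε, hA⟩ := Metric.eventually_nhds_iff.1 e2
  have hIoo : Set.Ioo (0 : ℝ) (min ε 1) ∈ 𝓝[>] (0 : ℝ) := Ioo_mem_nhdsGT (lt_min hε one_pos)
  filter_upwards [hIoo] with δ hδ s t hs hs' ht ht' hst
  have hδε : δ < ε := hδ.2.trans_le (min_le_left _ _)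
  have hδ1 : δ < 1 := hδ.2.trans_le (min_le_right _ _)
  refine ⟨F (s, t), ?_, ?_, ?_⟩
  · rw [hFi]
    simp
  · rw [hFi]
    simp
  · intro j x hx hx' h1 h2
    by_cases hj : j = i
    · subst hj
      have hxs : x - s ≠ 0 := sub_ne_zero.2 fun h => h1 ⟨rfl, h⟩
      have hxt : x - t ≠ 0 := sub_ne_zero.2 fun h => h2 ⟨rfl, h⟩
      rw [hFi]
      simp only []
      have hK0 : 0 < K (s, t) := by rw [hK]; positivity
      have hK1 : K (s, t) ≤ 1 := by
        rw [hK]
        simp only []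
        rw [div_le_one (by positivity)]
        nlinarith [sq_nonneg s, sq_nonneg t, mul_nonneg (sq_nonneg s) (sq_nonneg t)]
      have hp : 0 < (x - s) ^ 2 * (x - t) ^ 2 := by positivity
      have ha : (x - s) ^ 2 < 1 := by
        rw [sq_lt_one_iff_abs_lt_one, abs_lt]
        constructor <;> linarith
      have hb : (x - t) ^ 2 < 1 := by
        rw [sq_lt_one_iff_abs_lt_one, abs_lt]
        constructor <;> linarith
      have hpp : (x - s) ^ 2 * (x - t) ^ 2 < 1 := by nlinarith [sq_nonneg (x - s), sq_nonneg (x - t)]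
      have hq : 0 < K (s, t) * ((x - s) ^ 2 * (x - t) ^ 2) := mul_pos hK0 hp
      have hq1 : K (s, t) * ((x - s) ^ 2 * (x - t) ^ 2) < 1 := by nlinarith
      rw [abs_lt]
      constructor <;> linarith
    · have hdist : dist (((s, t), x) : (ℝ × ℝ) × ℝ) 0 < ε := by
        rw [Prod.dist_eq, Prod.dist_eq]
        simp only [Prod.fst_zero, Prod.snd_zero, dist_zero_right, Real.norm_eq_abs]
        rw [abs_of_pos hs, abs_of_pos ht, abs_of_pos hx]
        exact max_lt (max_lt (hs'.trans hδε) (ht'.trans hδε)) (hx'.trans hδε)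
      exact hA hdist j hj

end Pool.CS5
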